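import Pool.Agent.Helper17.RZ.Sch.St
import Pool.Agent.Helper49.RZ.St

/-!
# Project RZ (MP_77656e_ag), the layer of schemes: assembly
-/

set_option autoImplicit false

open AlgebraicGeometry CategoryTheory TopologicalSpace Opposite

namespace Pool.Agent.Helper17.RZ.Sch

open Pool.Agent.Helper49.RZ

universe u v w v' w'

noncomputable section

theorem QuasiEquivalent_trans {k : Type u} [Field k] {A B C : DGCat.{u, v, w} k} (h : QuasiEquivalent A B)
    (h' : QuasiEquivalent B C) : QuasiEquivalent A C := by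
  induction h with
  | refl A => exact h'
  | left F hF _ ih => exact .left F hF (ih h')
  | right F hF _ ih => exact .right F hF (ih h')

theorem quasiEquivalent_of_wEquiv (hP : PerfEquiv.{u, v, w}) {k : Type u} [Field k] {C D : DGCat.{u, v, w} k}
    (h : WEquiv C D) : QuasiEquivalent (Perf C) (Perf D) := by
  obtain ⟨F, h1, h2⟩ := h
  obtain ⟨G, hG⟩ := hP F h1 (fun Y => by
    obtain ⟨X, hX⟩ := h2 Y
    exact DGThick.retract _ _ (DGThick.base _ ⟨X, rfl⟩) hX)
  exact .right G hG (.refl _)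

theorem isRationalField_of_equiv {k : Type u} [Field k] {K K' : Type u} [Field K] [Field K'] [Algebra k K]
    [Algebra k K'] (e : K ≃ₐ[k] K') (h : IsRationalField k K') : IsRationalField k K := by
  obtain ⟨n, ⟨g⟩⟩ := h
  exact ⟨n, ⟨e.trans g⟩⟩

theorem main3 (hC : CompareS.{u}) (hT : TransportS.{u}) (hS : SchemeEx.{u})
    (hP : PerfEquiv.{u, u + 1, u}) (hM : Main2.{u}) : Main3.{u} := by
  intro k _ _ h2
  obtain ⟨K, i1, i2, Z, R, h3, h4, h5⟩ := hM k h2
  obtain ⟨S, i3, f, U, ne, aff, cov, hf, e, he⟩ := hS k K Z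
  refine ⟨CSch.mk S f Z.I U ne aff cov, R, hf, fun h => h3 (isRationalField_of_equiv e h), h4, ?_⟩
  have e1 := hC k _ _ he
  have e2 : WEquiv (Z.map e).perf Z.perf := hT k K _ Z e
  exact QuasiEquivalent_trans (quasiEquivalent_of_wEquiv hP e1)
    (QuasiEquivalent_trans (quasiEquivalent_of_wEquiv hP e2) h5)

end

end Pool.Agent.Helper17.RZ.Sch
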