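import Pool.Agent.Helper17.RZ.Sch.Germ

/-!
# Project RZ (MP_77656e_ag), the layer of schemes: the Cech DG category of bounded complexes of vector bundles
-/

set_option autoImplicit false

open AlgebraicGeometry CategoryTheory TopologicalSpace Opposite

namespace Pool.Agent.Helper17.RZ.Sch

universe u

noncomputable section

variable {k : Type u} [Field k] (X : CSch.{u} k)

theorem CSch.sm_id (E : X.Z.Modules) (v : X.st E) : X.sm (𝟙 E) v = v := by
  obtain ⟨W, h, s, rfl⟩ := X.exists_gm E v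
  rw [X.sm_gm]; rfl

theorem CSch.sm_comp {E F G : X.Z.Modules} (f : E ⟶ F) (g : F ⟶ G) (v : X.st E) :
    X.sm (f ≫ g) v = X.sm g (X.sm f v) := by
  obtain ⟨W, h, s, rfl⟩ := X.exists_gm E v
  rw [X.sm_gm, X.sm_gm, X.sm_gm]; rfl

theorem CSch.sm_zero {E F : X.Z.Modules} (v : X.st E) : X.sm (0 : E ⟶ F) v = 0 := by
  obtain ⟨W, h, s, rfl⟩ := X.exists_gm E v
  rw [X.sm_gm, ← map_zero (X.gm F W h)]; rfl

theorem CSch.st_subsingleton {E : X.Z.Modules} (hE : Limits.IsZero E) : Subsingleton (X.st E) := by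
  constructor
  intro v w
  rw [← X.sm_id E v, ← X.sm_id E w, hE.eq_of_src (𝟙 E) 0, X.sm_zero, X.sm_zero]

variable {X}

/-- the direct sum of the stalks at the generic point of the terms of a complex -/
abbrev VBC.V (A : VBC X.Z) : Type u := DirectSum ℤ (fun i => X.st (A.C.X i))

/-- the inclusion of the term of degree `i` -/
def VBC.i0 (A : VBC X.Z) (i : ℤ) : X.st (A.C.X i) →ₗ[X.K] A.V :=
  DirectSum.lof X.K ℤ (fun i => X.st (A.C.X i)) i

/-- the component of degree `i` -/
def VBC.p0 (A : VBC X.Z) (i : ℤ) : A.V →ₗ[X.K] X.st (A.C.X i) :=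
  DirectSum.component X.K ℤ (fun i => X.st (A.C.X i)) i

theorem VBC.p0_i0 (A : VBC X.Z) (i : ℤ) (v : X.st (A.C.X i)) : A.p0 i (A.i0 i v) = v :=
  DirectSum.component.lof_self X.K (M := fun i => X.st (A.C.X i)) i v

theorem VBC.p0_i0_ne (A : VBC X.Z) (i j : ℤ) (h : i ≠ j) (v : X.st (A.C.X i)) : A.p0 j (A.i0 i v) = 0 := by
  unfold VBC.p0 VBC.i0
  rw [DirectSum.component.of, dif_neg h]

theorem VBC.ext0 (A : VBC X.Z) {W : Type*} [AddCommGroup W] [Module X.K W] {f g : A.V →ₗ[X.K] W}
    (h : ∀ i v, f (A.i0 i v) = g (A.i0 i v)) : f = g := by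
  apply DirectSum.linearMap_ext
  intro i
  ext v
  exact h i v

/-- The graded vector space with differential over the function field given by a bounded complex of
vector bundles: the direct sum of the stalks at the generic point. -/
def VBC.G (A : VBC X.Z) : GrD k X.K where
  V := A.V
  modk := Module.compHom _ (algebraMap k X.K)
  tower := by
    let : Module k A.V := Module.compHom _ (algebraMap k X.K)
    refine ⟨fun a b v => ?_⟩
    change (a • b) • v = algebraMap k X.K a • (b • v)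
    rw [Algebra.smul_def, mul_smul]
  pr i := A.i0 i ∘ₗ A.p0 i
  bd := A.bd
  pr_pr i j := by
    apply A.ext0
    intro l v
    by_cases h : l = j
    · subst h
      by_cases h' : i = l
      · subst h'; simp only [LinearMap.comp_apply, if_true, A.p0_i0]
      · rw [if_neg h']
        simp only [LinearMap.comp_apply, A.p0_i0, A.p0_i0_ne l i (Ne.symm h'), map_zero, LinearMap.zero_apply]
    · by_cases h' : i = j
      · subst h'
        simp only [LinearMap.comp_apply, if_true, A.p0_i0_ne l i h, map_zero]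
      · rw [if_neg h']
        simp only [LinearMap.comp_apply, A.p0_i0_ne l j h, map_zero, LinearMap.zero_apply]
  pr_bd i hi' := by
    apply A.ext0
    intro l v
    have := X.st_subsingleton (A.bounded i hi')
    simp only [LinearMap.comp_apply, LinearMap.zero_apply]
    rw [Subsingleton.elim (A.p0 i (A.i0 l v)) 0, map_zero]
  pr_sum := by
    apply A.ext0
    intro l v
    rw [LinearMap.sum_apply, LinearMap.id_apply]
    by_cases h : l ∈ Finset.Icc (-(A.bd : ℤ)) A.bd
    · rw [Finset.sum_eq_single l]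
      · simp only [LinearMap.comp_apply, A.p0_i0]
      · intro b _ hb
        simp only [LinearMap.comp_apply, A.p0_i0_ne l b (Ne.symm hb), map_zero]
      · intro h'; exact absurd h h'
    · have hl : (A.bd : ℤ) < |l| := by
        rw [Finset.mem_Icc] at h
        by_contra h'
        exact h (abs_le.mp (not_lt.mp h'))
      have := X.st_subsingleton (A.bounded l hl)
      rw [Subsingleton.elim v 0, map_zero]
      simp
  d := DirectSum.toModule X.K ℤ A.V (fun i => A.i0 (i + 1) ∘ₗ X.sm (A.C.d i (i + 1)))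
  d_pr i := by
    apply A.ext0
    intro l v
    have hd : ∀ (l : ℤ) (v : X.st (A.C.X l)), DirectSum.toModule X.K ℤ A.V
        (fun i => A.i0 (i + 1) ∘ₗ X.sm (A.C.d i (i + 1))) (A.i0 l v) = A.i0 (l + 1) (X.sm (A.C.d l (l + 1)) v) :=
      fun l v => by unfold VBC.i0; rw [DirectSum.toModule_lof]; rfl
    by_cases h : l = i
    · subst h
      simp only [LinearMap.comp_apply, A.p0_i0, hd]
    · simp only [LinearMap.comp_apply, A.p0_i0_ne l i h, map_zero, hd]
      rw [A.p0_i0_ne (l + 1) (i + 1) (by omega), map_zero]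
  d_d := by
    apply A.ext0
    intro l v
    have hd : ∀ (l : ℤ) (v : X.st (A.C.X l)), DirectSum.toModule X.K ℤ A.V
        (fun i => A.i0 (i + 1) ∘ₗ X.sm (A.C.d i (i + 1))) (A.i0 l v) = A.i0 (l + 1) (X.sm (A.C.d l (l + 1)) v) :=
      fun l v => by unfold VBC.i0; rw [DirectSum.toModule_lof]; rfl
    simp only [LinearMap.comp_apply, hd, LinearMap.zero_apply]
    rw [← X.sm_comp, HomologicalComplex.d_comp_d, X.sm_zero, map_zero]

/-- the inclusion of the term of degree `i` -/
def VBC.inj (A : VBC X.Z) (i : ℤ) : X.st (A.C.X i) →ₗ[X.K] A.G.V := A.i0 i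

/-- the component of degree `i` -/
def VBC.prj (A : VBC X.Z) (i : ℤ) : A.G.V →ₗ[X.K] X.st (A.C.X i) := A.p0 i

theorem VBC.prj_inj (A : VBC X.Z) (i : ℤ) (v : X.st (A.C.X i)) : A.prj i (A.inj i v) = v := A.p0_i0 i v

theorem VBC.prj_inj_ne (A : VBC X.Z) (i j : ℤ) (h : i ≠ j) (v : X.st (A.C.X i)) : A.prj j (A.inj i v) = 0 :=
  A.p0_i0_ne i j h v

theorem VBC.ext_inj (A : VBC X.Z) {W : Type*} [AddCommGroup W] [Module X.K W] {f g : A.G.V →ₗ[X.K] W}
    (h : ∀ i v, f (A.inj i v) = g (A.inj i v)) : f = g := A.ext0 h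

theorem VBC.G_pr (A : VBC X.Z) (i : ℤ) (v : A.G.V) : A.G.pr i v = A.inj i (A.prj i v) := rfl

theorem VBC.G_d (A : VBC X.Z) (i : ℤ) (v : X.st (A.C.X i)) :
    A.G.d (A.inj i v) = A.inj (i + 1) (X.sm (A.C.d i (i + 1)) v) := by
  change DirectSum.toModule X.K ℤ A.V _ (DirectSum.lof X.K ℤ (fun i => X.st (A.C.X i)) i v) = _
  rw [DirectSum.toModule_lof]; rfl

theorem VBC.sum_inj_prj (A : VBC X.Z) (v : A.G.V) :
    v = ∑ l ∈ Finset.Icc (-(A.G.bd : ℤ)) A.G.bd, A.inj l (A.prj l v) := by
  have h3 := congrArg (fun f => f v) A.G.pr_sum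
  simp only [LinearMap.sum_apply, LinearMap.id_apply] at h3
  exact h3.symm

/-- the open subset of the finite set `σ` of indices: the intersection of the `U i`, `i ∈ σ` -/
def CSch.Us (X : CSch.{u} k) (σ : Finset X.I) : X.Z.Opens := σ.inf X.U

/-- Morphisms over the open subset of `σ`: the matrices of germs of morphisms of sheaves of modules
between the restrictions to `U σ` of the terms of the complexes. -/
def VBC.H (A B : VBC X.Z) (σ : Finset X.I) : Submodule k (A.G.V →ₗ[X.K] B.G.V) where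
  carrier := {φ | ∀ i j, X.IsGerm (A.C.X i) (B.C.X j) (X.Us σ) (B.prj j ∘ₗ φ ∘ₗ A.inj i)}
  add_mem' := by
    intro φ ψ hφ hψ i j
    rw [X.isGerm_iff _ _ (B.vb j)]
    intro W hW v hv
    exact (X.sec (B.C.X j) W).add_mem (X.sec_of_isGerm _ _ _ _ (hφ i j) W hW v hv)
      (X.sec_of_isGerm _ _ _ _ (hψ i j) W hW v hv)
  zero_mem' := by
    intro i j
    rw [X.isGerm_iff _ _ (B.vb j)]
    intro W hW v hv
    simp only [LinearMap.comp_apply, LinearMap.zero_apply, map_zero]
    exact (X.sec (B.C.X j) W).zero_mem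
  smul_mem' := by
    intro c φ hφ i j
    rw [X.isGerm_iff _ _ (B.vb j)]
    intro W hW v hv
    have h1 := X.sec_of_isGerm _ _ _ _ (hφ i j) W hW v hv
    have h2 := (X.sec (B.C.X j) W).smul_mem (algebraMap k (X.OO W) c) h1
    have h3 : (B.prj j ∘ₗ (c • φ) ∘ₗ A.inj i) v = (algebraMap k (X.OO W) c) • (B.prj j ∘ₗ φ ∘ₗ A.inj i) v := by
      exact map_smul (B.prj j) (algebraMap k X.K c) (φ (A.inj i v))
    rw [h3]; exact h2

theorem CSch.Us_anti (X : CSch.{u} k) {σ τ : Finset X.I} (h : σ ⊆ τ) : X.Us τ ≤ X.Us σ := Finset.inf_mono h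

theorem CSch.sm_sec {E F : X.Z.Modules} (g : E ⟶ F) (W : X.Z.Opens) (v : X.st E) (hv : v ∈ X.sec E W) :
    X.sm g v ∈ X.sec F W := by
  intro h
  obtain ⟨s, rfl⟩ := hv h
  exact ⟨g.app W s, (X.sm_gm g W h s).symm⟩

/-- The local system of morphisms of bounded complexes of vector bundles on the scheme. -/
def CSch.sys (X : CSch.{u} k) : LocSys.{u, u + 1} k X.K X.I where
  Obj := VBC X.Z
  G A := A.G
  H A B σ := A.H B σ
  mono A B σ τ _ hστ := by
    intro φ hφ i j
    rw [X.isGerm_iff _ _ (B.vb j)]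
    intro W hW v hv
    exact X.sec_of_isGerm _ _ _ _ (hφ i j) W (hW.trans (X.Us_anti hστ)) v hv
  comp_mem A B D σ φ ψ hφ hψ := by
    intro i j
    rw [X.isGerm_iff _ _ (D.vb j)]
    intro W hW v hv
    have h1 : ∀ l, (D.prj j (φ (B.inj l (B.prj l (ψ (A.inj i v)))))) ∈ X.sec (D.C.X j) W := by
      intro l
      exact X.sec_of_isGerm _ _ _ _ (hφ l j) W hW _ (X.sec_of_isGerm _ _ _ _ (hψ i l) W hW v hv)
    change D.prj j (φ (ψ (A.inj i v))) ∈ _
    rw [B.sum_inj_prj (ψ (A.inj i v)), map_sum, map_sum]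
    exact Submodule.sum_mem _ fun l _ => h1 l
  id_mem A σ := by
    intro i j
    rw [X.isGerm_iff _ _ (A.vb j)]
    intro W hW v hv
    change A.prj j (A.inj i v) ∈ _
    by_cases h : i = j
    · subst h; rw [A.prj_inj]; exact hv
    · rw [A.prj_inj_ne i j h]; exact (X.sec (A.C.X j) W).zero_mem
  pr_mem A σ n := by
    intro i j
    rw [X.isGerm_iff _ _ (A.vb j)]
    intro W hW v hv
    change A.prj j (A.inj n (A.prj n (A.inj i v))) ∈ _
    by_cases h : i = n
    · subst h
      rw [A.prj_inj]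
      by_cases h : i = j
      · subst h; rw [A.prj_inj]; exact hv
      · rw [A.prj_inj_ne i j h]; exact (X.sec (A.C.X j) W).zero_mem
    · rw [A.prj_inj_ne i n h, map_zero, map_zero]; exact (X.sec (A.C.X j) W).zero_mem
  d_mem A σ := by
    intro i j
    rw [X.isGerm_iff _ _ (A.vb j)]
    intro W hW v hv
    change A.prj j (A.G.d (A.inj i v)) ∈ _
    rw [A.G_d]
    by_cases h : i + 1 = j
    · subst h; rw [A.prj_inj]; exact X.sm_sec _ W v hv
    · rw [A.prj_inj_ne _ j h]; exact (X.sec (A.C.X j) W).zero_mem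

/-- The Cech DG category of bounded complexes of vector bundles on the scheme: the morphisms are the
Cech cochains with values in the matrices of morphisms of sheaves of modules. -/
def CSch.cech (X : CSch.{u} k) : DGCat.{u, u + 1, u} k := X.sys.dg

end

end Pool.Agent.Helper17.RZ.Sch
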