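import Pool.Agent.Helper17.RZ.Sch.Dual

/-!
# Project RZ (MP_77656e_ag), the layer of schemes: comparison of vector bundles with lattices
-/

set_option autoImplicit false

open AlgebraicGeometry CategoryTheory TopologicalSpace Opposite

namespace Pool.Agent.Helper17.RZ.Sch

open Pool.Agent.Helper49.RZ

universe u

noncomputable section

/-- lattices with dual bases are finitely generated and projective -/
theorem fin_proj_of_dual {k K : Type u} [Field k] [Field K] [Algebra k K] (R : Subalgebra k K) {V : Type u}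
    [AddCommGroup V] [Module K V] (L : Submodule R V) {ι : Type} [Fintype ι] (y : ι → V)
    (ζ : ι → (V →ₗ[K] K)) (hy : ∀ l, y l ∈ L) (hζ : ∀ l, ∀ v ∈ L, ζ l v ∈ R)
    (hv : ∀ v, v = ∑ l, ζ l v • y l) : Module.Finite R L ∧ Module.Projective R L := by
  let f : (ι → R) →ₗ[R] L :=
    { toFun := fun c => ∑ l, c l • (⟨y l, hy l⟩ : L)
      map_add' := fun c d => by
        rw [← Finset.sum_add_distrib]; exact Finset.sum_congr rfl fun l _ => by rw [Pi.add_apply, add_smul]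
      map_smul' := fun c d => by
        rw [Finset.smul_sum]
        exact Finset.sum_congr rfl fun l _ => by rw [Pi.smul_apply, smul_assoc]; rfl }
  let s : L →ₗ[R] (ι → R) :=
    { toFun := fun v l => ⟨ζ l v.1, hζ l v.1 v.2⟩
      map_add' := fun v w => by
        funext l; apply Subtype.ext; exact map_add (ζ l) v.1 w.1
      map_smul' := fun c v => by
        funext l; apply Subtype.ext; exact map_smul (ζ l) (c : K) v.1 }
  have hfs : ∀ v, f (s v) = v := by
    intro v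
    apply Subtype.ext
    have h1 : ((f (s v) : L) : V) = ∑ l, ζ l v.1 • y l := by
      change ((∑ l, (s v) l • (⟨y l, hy l⟩ : L) : L) : V) = _
      rw [AddSubmonoidClass.coe_finsetSum]; rfl
    rw [h1, ← hv]
  constructor
  · exact Module.Finite.of_surjective f fun v => ⟨s v, hfs v⟩
  · exact Module.Projective.of_split s f (LinearMap.ext hfs)

variable {k : Type u} [Field k] (X : CSch.{u} k)

theorem CSch.eta_mem_Us (σ : Finset X.I) : X.eta ∈ X.Us σ := by
  classical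
  unfold CSch.Us
  induction σ using Finset.induction_on with
  | empty => trivial
  | insert i s _ ih =>
    rw [Finset.inf_insert, Opens.mem_inf]
    obtain ⟨x, hx⟩ := X.ne i
    exact ⟨X.eta_mem hx, ih⟩

variable {X}

theorem A_le {a : X.I → X.K} (h : IsModel X a) (σ : Finset X.I) : (pv X a h).A σ ≤ X.OO (X.Us σ) := by
  rcases σ.eq_empty_or_nonempty with rfl | hσ
  · unfold ProjVar.A
    rw [Algebra.adjoin_le_iff]
    rintro x ⟨i, hi', _⟩
    exact absurd hi' (Finset.notMem_empty i)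
  · rw [h.OO_eq σ hσ]; rfl

theorem A_eq {a : X.I → X.K} (h : IsModel X a) (σ : Finset X.I) (hσ : σ.Nonempty) :
    X.OO (X.Us σ) = (pv X a h).A σ := h.OO_eq σ hσ

/-- vectors all of whose components are sections over `W` -/
def VBC.SecV (A : VBC X.Z) (W : X.Z.Opens) : Set A.G.V := {v | ∀ i, A.prj i v ∈ X.sec (A.C.X i) W}

/-- the lattice of a complex of vector bundles over the open subset of `σ` -/
def VBC.lat (A : VBC X.Z) {a : X.I → X.K} (h : IsModel X a) (σ : Finset X.I) :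
    Submodule ((pv X a h).A σ) A.G.V where
  carrier := A.SecV (X.Us σ)
  add_mem' := fun hv hw i => by rw [map_add]; exact (X.sec _ _).add_mem (hv i) (hw i)
  zero_mem' := fun i => by rw [map_zero]; exact (X.sec _ _).zero_mem
  smul_mem' := fun c v hv i => by
    have h1 := (X.sec (A.C.X i) (X.Us σ)).smul_mem (⟨(c : X.K), A_le h σ c.2⟩ : X.OO (X.Us σ)) (hv i)
    have h2 : A.prj i (c • v) = (⟨(c : X.K), A_le h σ c.2⟩ : X.OO (X.Us σ)) • A.prj i v :=
      map_smul (A.prj i) (c : X.K) v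
    rw [h2]; exact h1

/-- dual bases for complexes -/
theorem VBC.dual (hD : DualBasis.{u}) (A : VBC X.Z) (W : X.Z.Opens) (hW : IsAffineOpen W) (hη : X.eta ∈ W) :
    ∃ (ι : Type) (_ : Fintype ι) (y : ι → A.G.V) (ζ : ι → (A.G.V →ₗ[X.K] X.K)),
      (∀ l, y l ∈ A.SecV W) ∧ (∀ l, ∀ V ≤ W, ∀ v ∈ A.SecV V, ζ l v ∈ X.OO V) ∧
      ∀ v, v = ∑ l, ζ l v • y l := by
  choose ι hι x ξ hx hξ hv using fun i => hD k X (A.C.X i) (A.vb i) W hW hη
  refine ⟨Σ i : Finset.Icc (-(A.G.bd : ℤ)) A.G.bd, ι i, inferInstance, fun p => A.inj p.1 (x p.1 p.2),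
    fun p => ξ p.1 p.2 ∘ₗ A.prj p.1, ?_, ?_, ?_⟩
  · rintro ⟨i, l⟩ j
    by_cases hij : (i : ℤ) = j
    · subst hij; rw [A.prj_inj]; exact hx i l
    · rw [A.prj_inj_ne _ _ hij]; exact (X.sec _ _).zero_mem
  · rintro ⟨i, l⟩ V hV v hvV
    exact hξ i l V hV _ (hvV i)
  · intro v
    rw [Fintype.sum_sigma]
    conv_lhs => rw [A.sum_inj_prj v]
    rw [← Finset.sum_coe_sort]
    refine Finset.sum_congr rfl fun i _ => ?_
    conv_lhs => rw [hv i (A.prj i v), map_sum]
    exact Finset.sum_congr rfl fun l _ => by rw [map_smul]; rfl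

theorem VBC.H_lat {A B : VBC X.Z} {σ : Finset X.I} {φ : A.G.V →ₗ[X.K] B.G.V} (hφ : φ ∈ A.H B σ)
    {v : A.G.V} (hv : v ∈ A.SecV (X.Us σ)) : φ v ∈ B.SecV (X.Us σ) := by
  intro j
  rw [A.sum_inj_prj v, map_sum, map_sum]
  exact Submodule.sum_mem _ fun i _ =>
    X.sec_of_isGerm _ _ _ _ (hφ i j) _ le_rfl _ (hv i)

theorem VBC.H_of_lat (hD : DualBasis.{u}) {A B : VBC X.Z} {σ : Finset X.I} (hσ : IsAffineOpen (X.Us σ))
    {φ : A.G.V →ₗ[X.K] B.G.V} (hφ : ∀ v ∈ A.SecV (X.Us σ), φ v ∈ B.SecV (X.Us σ)) : φ ∈ A.H B σ := by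
  intro i j
  rw [X.isGerm_iff _ _ (B.vb j)]
  intro W hW v hv
  obtain ⟨ι, hι, x, ξ, hx, hξ, hvv⟩ := hD k X (A.C.X i) (A.vb i) _ hσ (X.eta_mem_Us σ)
  rw [hvv v, map_sum]
  refine Submodule.sum_mem _ fun l _ => ?_
  have h1 : A.inj i (x l) ∈ A.SecV (X.Us σ) := by
    intro j
    by_cases hij : i = j
    · subst hij; rw [A.prj_inj]; exact hx l
    · rw [A.prj_inj_ne _ _ hij]; exact (X.sec _ _).zero_mem
  have h2 := X.sec_mono (B.C.X j) hW (hφ _ h1 j)
  have h3 := (X.sec (B.C.X j) W).smul_mem (⟨ξ l v, hξ l W hW v hv⟩ : X.OO W) h2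
  rw [map_smul]
  exact h3

/-- the complex of lattices of a complex of vector bundles -/
def VBC.cplx (hD : DualBasis.{u}) (A : VBC X.Z) {a : X.I → X.K} (h : IsModel X a) : Cplx (pv X a h) where
  toGrD := A.G
  lat σ := A.lat h σ
  lat_fin σ hσ := by
    obtain ⟨ι, hι, y, ζ, hy, hζ, hv⟩ := A.dual hD (X.Us σ) (h.aff σ hσ) (X.eta_mem_Us σ)
    exact (fin_proj_of_dual _ _ y ζ hy (fun l v hv => by
      have := hζ l _ le_rfl v hv
      rw [A_eq h σ hσ] at this; exact this) hv).1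
  lat_proj σ hσ := by
    obtain ⟨ι, hι, y, ζ, hy, hζ, hv⟩ := A.dual hD (X.Us σ) (h.aff σ hσ) (X.eta_mem_Us σ)
    exact (fin_proj_of_dual _ _ y ζ hy (fun l v hv => by
      have := hζ l _ le_rfl v hv
      rw [A_eq h σ hσ] at this; exact this) hv).2
  lat_gen σ hσ v := by
    classical
    obtain ⟨ι, hι, y, ζ, hy, hζ, hv⟩ := A.dual hD (X.Us σ) (h.aff σ hσ) (X.eta_mem_Us σ)
    choose c hc hcm using fun l => (pv X a h).exists_mul_mem σ hσ (ζ l v)
    refine ⟨∏ l, c l, Finset.prod_ne_zero_iff.mpr fun l _ => hc l, ?_⟩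
    have h1 : (∏ l, c l) • v = ∑ l, (⟨((∏ m ∈ Finset.univ.erase l, c m : (pv X a h).A σ) : X.K) *
        ((c l : X.K) * ζ l v), ((pv X a h).A σ).mul_mem (SetLike.coe_mem _) (hcm l)⟩ : (pv X a h).A σ) • y l := by
      conv_lhs => rw [hv v, Finset.smul_sum]
      refine Finset.sum_congr rfl fun l _ => ?_
      change (((∏ l, c l : (pv X a h).A σ) : X.K)) • (ζ l v • y l) =
        (((∏ m ∈ Finset.univ.erase l, c m : (pv X a h).A σ) : X.K) * ((c l : X.K) * ζ l v)) • y l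
      rw [smul_smul, ← Finset.prod_erase_mul Finset.univ c (Finset.mem_univ l)]
      push_cast
      rw [mul_assoc]
    rw [h1]
    exact Submodule.sum_mem _ fun l _ => (A.lat h σ).smul_mem _ (hy l)
  lat_loc σ τ hσ hστ := by
    obtain ⟨ι, hι, y, ζ, hy, hζ, hv⟩ := A.dual hD (X.Us σ) (h.aff σ hσ) (X.eta_mem_Us σ)
    apply le_antisymm
    · intro v hvτ
      rw [hv v]
      refine Submodule.sum_mem _ fun l _ => ?_
      have h1 := hζ l _ (X.Us_anti hστ) v hvτ
      rw [A_eq h τ (hσ.mono hστ)] at h1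
      exact Submodule.smul_mem _ (⟨ζ l v, h1⟩ : (pv X a h).A τ) (Submodule.subset_span (hy l))
    · rw [Submodule.span_le]
      intro v hvσ i
      exact X.sec_mono _ (X.Us_anti hστ) (hvσ i)
  lat_pr σ i v hv := VBC.H_lat (X.sys.pr_mem A σ i) hv
  lat_d σ v hv := VBC.H_lat (X.sys.d_mem A σ) hv

/-- the functor on objects -/
def cmpObj (hD : DualBasis.{u}) {a : X.I → X.K} (h : IsModel X a) (A : X.cech.Obj) : (pv X a h).perf.Obj :=
  VBC.cplx hD A h

/-- the functor -/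
def cmpFun (hD : DualBasis.{u}) {a : X.I → X.K} (h : IsModel X a) : DGFun X.cech (pv X a h).perf where
  obj A := cmpObj hD h A
  map :=
    { toFun := fun c => ⟨c.1, c.2.1, fun σ hσ => ⟨fun _ hv => VBC.H_lat (c.2.2 σ hσ).1 hv, (c.2.2 σ hσ).2⟩⟩
      map_add' := fun _ _ => rfl
      map_smul' := fun _ _ => rfl }
  map_one _ := rfl
  map_comp _ _ _ := rfl
  map_d _ _ := rfl

theorem QI_of_bijective {k : Type u} [Field k] {C D : DGCat.{u, u + 1, u} k} (F : DGFun C D) (X Y : C.Obj)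
    (hi : ∀ n, Function.Injective (F.map : C.Hom X Y n →ₗ[k] D.Hom (F.obj X) (F.obj Y) n))
    (hs : ∀ n, Function.Surjective (F.map : C.Hom X Y n →ₗ[k] D.Hom (F.obj X) (F.obj Y) n)) :
    (F.onHom X Y).QI := by
  constructor
  · intro l n m h₁ h₂ x y hx hy
    obtain ⟨y', rfl⟩ := hs l y
    refine ⟨y', hi n ?_⟩
    have := F.map_d h₁ y'
    exact hy.trans this.symm
  · intro l n m h₁ h₂ y hy
    obtain ⟨y', rfl⟩ := hs n y
    refine ⟨y', 0, ?_, ?_⟩
    · apply hi m
      have h3 := F.map_d h₂ y'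
      exact (h3.trans hy).trans (map_zero _).symm
    · rw [map_zero, add_zero]; rfl

/-- S5 -/
theorem compareS (hD : DualBasis.{u}) (hE : EssS.{u}) (hR : IsoRetr.{u}) : CompareS.{u} := by
  intro k _ X a h
  refine ⟨cmpFun hD h, ?_, ?_⟩
  · intro A B
    apply QI_of_bijective
    · intro n c c' hc
      have h1 : ((cmpFun hD h).map c).1 = ((cmpFun hD h).map c').1 := by rw [hc]
      exact Subtype.ext h1
    · intro n c
      exact ⟨⟨c.1, c.2.1, fun σ hσ => ⟨VBC.H_of_lat hD (h.aff σ hσ) (c.2.2 σ hσ).1, (c.2.2 σ hσ).2⟩⟩, rfl⟩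
  · intro Y
    obtain ⟨A, e, he1, he2, he3⟩ := hE k X a h Y
    refine ⟨A, ?_⟩
    have hlat : ∀ σ : Finset X.I, σ.Nonempty → ∀ v, v ∈ A.lat h σ ↔ e v ∈ Y.lat σ :=
      fun σ hσ v => (he3 σ hσ v).symm
    refine hR k X.K (pv X a h) (VBC.cplx hD A h) Y e.symm.toLinearMap e.toLinearMap ?_ ?_ ?_ ?_ ?_ ?_ ?_
    · intro i
      rw [add_zero]
      ext v
      change e.symm (Y.pr i v) = A.G.pr i (e.symm v)
      rw [LinearEquiv.symm_apply_eq, he1, LinearEquiv.apply_symm_apply]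
    · intro i
      rw [add_zero]
      ext v
      exact he1 i v
    · ext v
      change e.symm (Y.d v) = A.G.d (e.symm v)
      rw [LinearEquiv.symm_apply_eq, he2, LinearEquiv.apply_symm_apply]
    · ext v
      exact he2 v
    · intro σ hσ y hy
      change e.symm y ∈ A.lat h σ
      rw [hlat σ hσ, LinearEquiv.apply_symm_apply]; exact hy
    · intro σ hσ x hx
      exact (hlat σ hσ x).mp hx
    · ext v
      exact e.apply_symm_apply v

end

end Pool.Agent.Helper17.RZ.Sch
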