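import Pool.Agent.Helper17.RZ.LocCat
import Pool.Agent.Helper17.RZF.Base

/-!
# Project RZ (MP_77656e_ag), the layer of schemes: definitions

An integral scheme `Z` over `k` with a finite affine open covering, germs at the generic point of
sections of sheaves of modules, vector bundles, bounded complexes of vector bundles.
-/

set_option autoImplicit false

open AlgebraicGeometry CategoryTheory TopologicalSpace Opposite

namespace Pool.Agent.Helper17.RZ.Sch

universe u

noncomputable section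

variable {k : Type u} [Field k] (X : CSch.{u} k)

/-- the generic point -/
abbrev CSch.eta : X.Z := genericPoint X.Z

/-- the function field -/
def CSch.K : Type u := X.Z.functionField

instance : Field X.K := inferInstanceAs (Field X.Z.functionField)

/-- the germ at the generic point of a regular function on `W` -/
def CSch.gr (W : X.Z.Opens) (h : X.eta ∈ W) : Γ(X.Z, W) →+* X.K := (X.Z.presheaf.germ W X.eta h).hom

/-- the constants as global functions -/
def CSch.cst : k →+* Γ(X.Z, ⊤) := ((Scheme.ΓSpecIso (CommRingCat.of k)).inv ≫ X.f.appTop).hom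

/-- the function field is an extension of `k` -/
instance : Algebra k X.K := RingHom.toAlgebra ((X.gr ⊤ trivial).comp X.cst)

/-- restriction of regular functions -/
theorem CSch.gr_res {W W' : X.Z.Opens} (h : X.eta ∈ W) (i : W' ≤ W) (h' : X.eta ∈ W') (r : Γ(X.Z, W)) :
    X.gr W' h' (X.Z.presheaf.map (homOfLE i).op r) = X.gr W h r :=
  TopCat.Presheaf.germ_res_apply X.Z.presheaf (homOfLE i) X.eta h' r

/-- a nonempty open subset contains the generic point -/
theorem CSch.eta_mem {W : X.Z.Opens} {x : X.Z} (h : x ∈ W) : X.eta ∈ W :=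
  ((genericPoint_spec X.Z).mem_open_set_iff W.isOpen).mpr ⟨x, trivial, h⟩

/-- The functions in `K` which are regular on `W` (all functions if `W` is empty). -/
def CSch.OO (W : X.Z.Opens) : Subalgebra k X.K where
  carrier := {c | ∀ h : X.eta ∈ W, ∃ r : Γ(X.Z, W), X.gr W h r = c}
  mul_mem' := fun ha hb h => by
    obtain ⟨r, hr⟩ := ha h
    obtain ⟨s, hs⟩ := hb h
    exact ⟨r * s, by rw [map_mul, hr, hs]⟩
  add_mem' := fun ha hb h => by
    obtain ⟨r, hr⟩ := ha h
    obtain ⟨s, hs⟩ := hb h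
    exact ⟨r + s, by rw [map_add, hr, hs]⟩
  algebraMap_mem' := fun c h => ⟨X.Z.presheaf.map (homOfLE le_top).op (X.cst c),
    X.gr_res (W := ⊤) trivial le_top h _⟩

/-- the stalk at the generic point of a sheaf of modules -/
def CSch.st (E : X.Z.Modules) : Type u :=
  (TopCat.Presheaf.stalk (X := X.Z.toPresheafedSpace.carrier) E.presheaf (genericPoint X.Z) : AddCommGrpCat.{u})

instance (E : X.Z.Modules) : AddCommGroup (X.st E) :=
  inferInstanceAs (AddCommGroup (TopCat.Presheaf.stalk (X := X.Z.toPresheafedSpace.carrier) E.presheaf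
    (genericPoint X.Z) : AddCommGrpCat.{u}))

/-- it is a vector space over the function field (Mathlib's structure) -/
instance (E : X.Z.Modules) : Module X.K (X.st E) :=
  PresheafOfModules.instModuleCarrierStalkCommRingCatCarrierAbPresheafOpensCarrier (R := X.Z.presheaf)
    E.val (genericPoint X.Z)

/-- the germ at the generic point of a section over `W` -/
def CSch.gm (E : X.Z.Modules) (W : X.Z.Opens) (h : X.eta ∈ W) : Γ(E, W) →+ X.st E :=
  (TopCat.Presheaf.germ (X := X.Z.toPresheafedSpace.carrier) E.presheaf W _ h).hom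

theorem CSch.gm_smul (E : X.Z.Modules) (W : X.Z.Opens) (h : X.eta ∈ W) (r : Γ(X.Z, W)) (m : Γ(E, W)) :
    X.gm E W h (r • m) = X.gr W h r • X.gm E W h m :=
  PresheafOfModules.germ_smul (R := X.Z.presheaf) (E.1) (genericPoint X.Z) W h r m

theorem CSch.gm_res (E : X.Z.Modules) {W W' : X.Z.Opens} (h : X.eta ∈ W) (i : W' ≤ W) (h' : X.eta ∈ W')
    (m : Γ(E, W)) : X.gm E W' h' (E.presheaf.map (homOfLE i).op m) = X.gm E W h m :=
  TopCat.Presheaf.germ_res_apply (X := X.Z.toPresheafedSpace.carrier) E.presheaf (homOfLE i) X.eta h' m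

/-- The germs at the generic point of the sections over `W` (everything if `W` is empty). -/
def CSch.sec (E : X.Z.Modules) (W : X.Z.Opens) : Submodule (X.OO W) (X.st E) where
  carrier := {v | ∀ h : X.eta ∈ W, ∃ s : Γ(E, W), X.gm E W h s = v}
  add_mem' := fun ha hb h => by
    obtain ⟨r, hr⟩ := ha h
    obtain ⟨s, hs⟩ := hb h
    exact ⟨r + s, by rw [map_add, hr, hs]⟩
  zero_mem' := fun h => ⟨0, map_zero _⟩
  smul_mem' := fun c v hv h => by
    obtain ⟨r, hr⟩ := c.2 h
    obtain ⟨s, hs⟩ := hv h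
    exact ⟨r • s, by rw [X.gm_smul, hr, hs]; rfl⟩

/-- `φ` is the germ at the generic point of a morphism `E|_U ⟶ F|_U` of sheaves of modules on `U`. -/
def CSch.IsGerm (E F : X.Z.Modules) (U : X.Z.Opens) (φ : X.st E →ₗ[X.K] X.st F) : Prop :=
  ∃ g : E.restrict U.ι ⟶ F.restrict U.ι, ∀ (W : U.toScheme.Opens) (h : X.eta ∈ U.ι ''ᵁ W)
    (s : Γ(E, U.ι ''ᵁ W)), φ (X.gm E _ h s) = X.gm F _ h (g.app W s)

theorem CSch.exists_gr (c : X.K) : ∃ (W : X.Z.Opens) (h : X.eta ∈ W) (r : Γ(X.Z, W)), X.gr W h r = c :=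
  X.Z.presheaf.exists_germ_eq c

theorem CSch.exists_gm (E : X.Z.Modules) (v : X.st E) :
    ∃ (W : X.Z.Opens) (h : X.eta ∈ W) (s : Γ(E, W)), X.gm E W h s = v :=
  TopCat.Presheaf.exists_germ_eq (X := X.Z.toPresheafedSpace.carrier) E.presheaf v

theorem CSch.gm_eq (E : X.Z.Modules) {W W' : X.Z.Opens} (h : X.eta ∈ W) (h' : X.eta ∈ W') (s : Γ(E, W))
    (t : Γ(E, W')) (e : X.gm E W h s = X.gm E W' h' t) : ∃ (V : X.Z.Opens) (_ : X.eta ∈ V) (i : V ≤ W)
      (i' : V ≤ W'), E.presheaf.map (homOfLE i).op s = E.presheaf.map (homOfLE i').op t := by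
  obtain ⟨V, hV, i, i', hh⟩ := TopCat.Presheaf.germ_eq (X := X.Z.toPresheafedSpace.carrier) E.presheaf
    X.eta h h' s t e
  exact ⟨V, hV, leOfHom i, leOfHom i', hh⟩

/-- a section over a smaller common open subset -/
theorem CSch.exists_gm_le (E : X.Z.Modules) (v : X.st E) (W : X.Z.Opens) (h : X.eta ∈ W) :
    ∃ (V : X.Z.Opens) (_ : V ≤ W) (h' : X.eta ∈ V) (s : Γ(E, V)), X.gm E V h' s = v := by
  obtain ⟨W', h', s, hs⟩ := X.exists_gm E v
  refine ⟨W ⊓ W', inf_le_left, ⟨h, h'⟩, E.presheaf.map (homOfLE inf_le_right).op s, ?_⟩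
  rw [X.gm_res E h' inf_le_right ⟨h, h'⟩ s, hs]

theorem CSch.exists_gr_le (c : X.K) (W : X.Z.Opens) (h : X.eta ∈ W) :
    ∃ (V : X.Z.Opens) (_ : V ≤ W) (h' : X.eta ∈ V) (r : Γ(X.Z, V)), X.gr V h' r = c := by
  obtain ⟨W', h', s, hs⟩ := X.exists_gr c
  refine ⟨W ⊓ W', inf_le_left, ⟨h, h'⟩, X.Z.presheaf.map (homOfLE inf_le_right).op s, ?_⟩
  rw [X.gr_res h' inf_le_right ⟨h, h'⟩ s, hs]

/-- the map of a morphism on stalks at the generic point, as an additive map -/
def CSch.sma {E F : X.Z.Modules} (g : E ⟶ F) : X.st E →+ X.st F :=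
  ((TopCat.Presheaf.stalkFunctor (X := X.Z.toPresheafedSpace.carrier) AddCommGrpCat.{u}
    (genericPoint X.Z)).map g.mapPresheaf).hom

theorem CSch.sma_gm {E F : X.Z.Modules} (g : E ⟶ F) (W : X.Z.Opens) (h : X.eta ∈ W) (s : Γ(E, W)) :
    X.sma g (X.gm E W h s) = X.gm F W h (g.app W s) :=
  TopCat.Presheaf.stalkFunctor_map_germ_apply (X := X.Z.toPresheafedSpace.carrier) W (genericPoint X.Z) h
    g.mapPresheaf s

/-- the map of a morphism on stalks at the generic point -/
def CSch.sm {E F : X.Z.Modules} (g : E ⟶ F) : X.st E →ₗ[X.K] X.st F where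
  toFun := X.sma g
  map_add' := map_add _
  map_smul' c v := by
    obtain ⟨W, h, r, rfl⟩ := X.exists_gr c
    obtain ⟨V, hV, h', s, rfl⟩ := X.exists_gm_le E v W h
    have h1 : X.gr W h r = X.gr V h' (X.Z.presheaf.map (homOfLE hV).op r) := (X.gr_res h hV h' r).symm
    rw [h1, RingHom.id_apply, ← X.gm_smul, X.sma_gm, X.sma_gm, ← X.gm_smul,
      Scheme.Modules.Hom.app_smul]

theorem CSch.sm_gm {E F : X.Z.Modules} (g : E ⟶ F) (W : X.Z.Opens) (h : X.eta ∈ W) (s : Γ(E, W)) :
    X.sm g (X.gm E W h s) = X.gm F W h (g.app W s) := X.sma_gm g W h s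

end

end Pool.Agent.Helper17.RZ.Sch
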