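import Pool.Agent.Helper17.RZ.Sch.Cech
import Pool.Agent.Helper17.RZ.St5

/-!
# Project RZ (MP_77656e_ag), the layer of schemes: statements of the modules
-/

set_option autoImplicit false

open AlgebraicGeometry CategoryTheory TopologicalSpace Opposite

namespace Pool.Agent.Helper17.RZ.Sch

open Pool.Agent.Helper49.RZ

universe u v w v' w'

noncomputable section

attribute [local instance] MvPolynomial.gradedAlgebra

/-- `a` are homogeneous coordinates of the generic point of `X` such that the functions regular on the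
open subsets `U σ` are generated by the quotients `a j / a i`, `i ∈ σ`. -/
structure IsModel {k : Type u} [Field k] (X : CSch.{u} k) (a : X.I → X.K) : Prop where
  ne : Nonempty X.I
  a_ne : ∀ i, a i ≠ 0
  gen : IntermediateField.adjoin k {x : X.K | ∃ i j, x = a i / a j} = ⊤
  OO_eq : ∀ σ : Finset X.I, σ.Nonempty →
    X.OO (X.Us σ) = Algebra.adjoin k {x : X.K | ∃ i ∈ σ, ∃ j, x = a j / a i}
  aff : ∀ σ : Finset X.I, σ.Nonempty → IsAffineOpen (X.Us σ)

/-- the projective variety of a model -/
def pv {k : Type u} [Field k] (X : CSch.{u} k) (a : X.I → X.K) (h : IsModel X a) : ProjVar k X.K where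
  I := X.I
  ne := h.ne
  a := a
  a_ne := h.a_ne
  gen := h.gen

/-- S1 (affine opens): dual bases of the sections of a vector bundle over an affine open subset -/
def DualBasis : Prop :=
  ∀ (k : Type u) [Field k] (X : CSch.{u} k) (E : X.Z.Modules), IsVB E → ∀ W : X.Z.Opens, IsAffineOpen W →
    X.eta ∈ W → ∃ (ι : Type) (_ : Fintype ι) (x : ι → X.st E) (ξ : ι → (X.st E →ₗ[X.K] X.K)),
      (∀ l, x l ∈ X.sec E W) ∧ (∀ l, ∀ V ≤ W, ∀ v ∈ X.sec E V, ξ l v ∈ X.OO V) ∧
      ∀ v, v = ∑ l, ξ l v • x l

/-- S2a (algebra): a finitely generated projective lattice is free near every prime ideal -/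
def FreeLoc : Prop :=
  ∀ (A K V : Type u) [CommRing A] [IsDomain A] [Field K] [Algebra A K] [IsFractionRing A K]
    [AddCommGroup V] [Module K V] [Module A V] [IsScalarTower A K V] (L : Submodule A V),
    Module.Finite A L → Module.Projective A L → (∀ v : V, ∃ c : A, c ≠ 0 ∧ c • v ∈ L) →
    ∀ (p : Ideal A) [p.IsPrime], ∃ (r : A) (n : ℕ) (e : Module.Basis (Fin n) K V), r ∉ p ∧
      (∀ j, e j ∈ L) ∧ ∀ v ∈ L, ∀ j, ∃ c : A, algebraMap A K c = algebraMap A K r * e.repr v j

/-- `c` is regular at the point `x` -/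
def Reg {k : Type u} [Field k] (X : CSch.{u} k) (x : X.Z) (c : X.K) : Prop :=
  ∃ W : X.Z.Opens, x ∈ W ∧ c ∈ X.OO W

/-- S2b (sheaves): a family of lattices `L x` in `V` over the local rings of the points of the scheme,
which is locally free, is the family of stalks of a vector bundle. -/
def SheafOf : Prop :=
  ∀ (k : Type u) [Field k] (X : CSch.{u} k) (V : Type u) [AddCommGroup V] [Module X.K V]
    (L : X.Z → Set V),
    (∀ x : X.Z, ∃ U : X.Z.Opens, x ∈ U ∧ ∃ (n : ℕ) (e : Module.Basis (Fin n) X.K V), ∀ y ∈ U, ∀ v,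
      v ∈ L y ↔ ∀ j, Reg X y (e.repr v j)) →
    ∃ (E : X.Z.Modules) (e : X.st E ≃ₗ[X.K] V), IsVB E ∧
      ∀ W : X.Z.Opens, X.eta ∈ W → ∀ v, v ∈ X.sec E W ↔ ∀ y ∈ W, e v ∈ L y

/-- S2 (a lattice is a vector bundle): a lattice, given by finitely generated projective modules over the
coordinate rings of the open subsets `U σ`, compatible with localisation, is the lattice of the sections
of a vector bundle. -/
def SheafEx : Prop :=
  ∀ (k : Type u) [Field k] (X : CSch.{u} k) (a : X.I → X.K) (h : IsModel X a) (V : Type u)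
    [AddCommGroup V] [Module X.K V] (lat : ∀ σ : Finset X.I, Submodule ((pv X a h).A σ) V),
    (∀ σ : Finset X.I, σ.Nonempty → Module.Finite ((pv X a h).A σ) (lat σ)) →
    (∀ σ : Finset X.I, σ.Nonempty → Module.Projective ((pv X a h).A σ) (lat σ)) →
    (∀ σ : Finset X.I, σ.Nonempty → ∀ v : V, ∃ c : (pv X a h).A σ, c ≠ 0 ∧ c • v ∈ lat σ) →
    (∀ σ τ : Finset X.I, σ.Nonempty → σ ⊆ τ → lat τ = Submodule.span ((pv X a h).A τ) (lat σ : Set V)) →
    ∃ (E : X.Z.Modules) (e : X.st E ≃ₗ[X.K] V), IsVB E ∧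
      ∀ σ : Finset X.I, σ.Nonempty → ∀ v, v ∈ X.sec E (X.Us σ) ↔ e v ∈ lat σ

/-- S3 (morphisms): a linear map which preserves the sections over an open covering is the germ of a
morphism -/
def MorEx : Prop :=
  ∀ (k : Type u) [Field k] (X : CSch.{u} k) (E F : X.Z.Modules), IsVB E → IsVB F →
    ∀ φ : X.st E →ₗ[X.K] X.st F, (∀ (i : X.I), ∀ W ≤ X.U i, ∀ v ∈ X.sec E W, φ v ∈ X.sec F W) →
      ∃ g : E ⟶ F, ∀ v, X.sm g v = φ v

/-- S4 (complexes): every complex of lattices comes from a bounded complex of vector bundles -/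
def EssS : Prop :=
  ∀ (k : Type u) [Field k] (X : CSch.{u} k) (a : X.I → X.K) (h : IsModel X a) (Y : Cplx (pv X a h)),
    ∃ (A : VBC X.Z) (e : A.G.V ≃ₗ[X.K] Y.V), (∀ i v, e (A.G.pr i v) = Y.pr i (e v)) ∧
      (∀ v, e (A.G.d v) = Y.d (e v)) ∧
      ∀ σ : Finset X.I, σ.Nonempty → ∀ v, e v ∈ Y.lat σ ↔ ∀ i, A.prj i v ∈ X.sec (A.C.X i) (X.Us σ)

/-- `F : C → D` is quasi-fully faithful and every object of `D` is a retract of an object of the image;
then it induces a quasi-equivalence of the categories of perfect modules -/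
def WEquiv {k : Type u} [Field k] (C : DGCat.{u, v, w} k) (D : DGCat.{u, v', w'} k) : Prop :=
  ∃ F : DGFun C D, (∀ X Y, (F.onHom X Y).QI) ∧ ∀ Y : D.Obj, ∃ X : C.Obj, D.Retract Y (F.obj X)

/-- S5: the Cech DG category of the scheme and the DG category of complexes of lattices -/
def CompareS : Prop :=
  ∀ (k : Type u) [Field k] (X : CSch.{u} k) (a : X.I → X.K) (h : IsModel X a),
    WEquiv X.cech (pv X a h).perf

/-- transport of a projective variety along an isomorphism of the function field -/
def _root_.Pool.Agent.Helper17.RZ.ProjVar.map {k : Type u} [Field k] {K K' : Type u} [Field K] [Field K']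
    [Algebra k K] [Algebra k K'] (Z : ProjVar k K) (e : K ≃ₐ[k] K') : ProjVar k K' where
  I := Z.I
  ne := Z.ne
  a i := e (Z.a i)
  a_ne i := (map_ne_zero_iff e e.injective).mpr (Z.a_ne i)
  gen := by
    have h1 := congrArg (IntermediateField.map (e : K →ₐ[k] K')) Z.gen
    rw [IntermediateField.adjoin_map] at h1
    have h2 : (e : K →ₐ[k] K') '' {x : K | ∃ i j, x = Z.a i / Z.a j} =
        {x : K' | ∃ i j, x = e (Z.a i) / e (Z.a j)} := by
      ext x
      constructor
      · rintro ⟨_, ⟨i, j, rfl⟩, rfl⟩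
        exact ⟨i, j, map_div₀ e _ _⟩
      · rintro ⟨i, j, rfl⟩
        exact ⟨_, ⟨i, j, rfl⟩, map_div₀ e _ _⟩
    rw [h2] at h1
    rw [h1, ← AlgHom.fieldRange_eq_map, AlgHom.fieldRange_eq_top]
    exact e.surjective

/-- S6: transport of the DG category of perfect complexes -/
def TransportS : Prop :=
  ∀ (k : Type u) [Field k] (K K' : Type u) [Field K] [Field K'] [Algebra k K] [Algebra k K']
    (Z : ProjVar k K) (e : K ≃ₐ[k] K'), WEquiv (Z.map e).perf Z.perf

/-- S7: the scheme of a projective variety: the closure of the generic point in the projective space -/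
def SchemeEx : Prop :=
  ∀ (k : Type u) [Field k] (K : Type u) [Field K] [Algebra k K] (Z : ProjVar k K),
    ∃ (S : Scheme.{u}) (_ : IsIntegral S) (f : S ⟶ Spec (CommRingCat.of k)) (U : Z.I → S.Opens)
      (ne : ∀ i, (U i : Set S).Nonempty) (aff : ∀ i, IsAffineOpen (U i)) (cov : ∀ x : S, ∃ i, x ∈ U i),
      IsProjective f ∧ ∃ e : K ≃ₐ[k] (CSch.mk S f Z.I U ne aff cov).K,
        IsModel (CSch.mk S f Z.I U ne aff cov) (fun i => e (Z.a i))

/-- S8: a rational scheme has a purely transcendental function field -/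
def RatS : Prop :=
  ∀ (k : Type u) [Field k] (X : CSch.{u} k), IsRational X.f → IsRationalField k X.K

/-- The main statement for schemes: for every algebraically closed field `k` of characteristic different
from 2 there is an integral projective scheme over `k` which is not rational and such that its DG category
of perfect complexes is quasi-equivalent to the DG category of perfect modules over a finite-dimensional
DG algebra. -/
def Main3 : Prop :=
  ∀ (k : Type u) [Field k] [IsAlgClosed k], (2 : k) ≠ 0 →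
    ∃ (X : CSch.{u} k) (R : DGA.{u, u} k), IsProjective X.f ∧ ¬ IsRationalField k X.K ∧ R.Fin ∧
      QuasiEquivalent (Perf X.cech) (Perf (oneObj.{u, u + 1, u} R))

end

end Pool.Agent.Helper17.RZ.Sch
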