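import Pool.Agent.Helper17.RZ.Sch.OO
import Pool.Agent.Helper17.RZ.Sch.St

/-!
# Project RZ (MP_77656e_ag), the layer of schemes: dual bases of sections over affine open subsets
-/

set_option autoImplicit false

open AlgebraicGeometry CategoryTheory TopologicalSpace Opposite

namespace Pool.Agent.Helper17.RZ.Sch

universe u

noncomputable section

variable {k : Type u} [Field k] (X : CSch.{u} k)

/-- sections over a subset of the domain of a local basis -/
theorem CSch.mem_sec_iff_lb (E : X.Z.Modules) (U : X.Z.Opens) (h : X.eta ∈ U) {n : ℕ} (e : Fin n → Γ(E, U))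
    (he : IsLB E U e) (V : X.Z.Opens) (hV : V ≤ U) (v : X.st E) :
    v ∈ X.sec E V ↔ ∀ j, (X.lb E U h e he).repr v j ∈ X.OO V := by
  constructor
  · intro hv j h'
    obtain ⟨s, rfl⟩ := hv h'
    obtain ⟨c, hc, _⟩ := he V hV s
    exact ⟨c j, by rw [hc, X.lb_repr E U h e he V hV h' c j]⟩
  · intro hv h'
    choose c hc using fun j => hv j h'
    refine ⟨∑ j, c j • E.presheaf.map (homOfLE hV).op (e j), ?_⟩
    apply (X.lb E U h e he).repr.injective
    ext j
    rw [X.lb_repr E U h e he V hV h' c j, hc]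

theorem CSch.mul_pow_mem {V : X.Z.Opens} {a c : X.K} (ha : a ∈ X.OO V) {N M : ℕ} (h : a ^ N * c ∈ X.OO V)
    (hNM : N ≤ M) : a ^ M * c ∈ X.OO V := by
  obtain ⟨d, rfl⟩ := Nat.exists_eq_add_of_le hNM
  rw [pow_add, mul_comm (a ^ N), mul_assoc]
  exact (X.OO V).mul_mem ((X.OO V).pow_mem ha d) h

/-- a finite covering by basic open subsets with local bases -/
theorem CSch.exists_cover (E : X.Z.Modules) (hE : IsVB E) (W : X.Z.Opens) (hW : IsAffineOpen W) :
    ∃ (r : ℕ) (g : Fin r → Γ(X.Z, W)) (n : Fin r → ℕ) (b : ∀ l, Module.Basis (Fin (n l)) X.K (X.st E)),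
      (∀ l, X.eta ∈ X.Z.basicOpen (g l)) ∧ (∀ x ∈ W, ∃ l, x ∈ X.Z.basicOpen (g l)) ∧
      ∀ l, ∀ V ≤ X.Z.basicOpen (g l), ∀ v, v ∈ X.sec E V ↔ ∀ j, (b l).repr v j ∈ X.OO V := by
  have h1 : ∀ x : W, ∃ (g : Γ(X.Z, W)) (n : ℕ) (b : Module.Basis (Fin n) X.K (X.st E)),
      x.1 ∈ X.Z.basicOpen g ∧ ∀ V ≤ X.Z.basicOpen g, ∀ v, v ∈ X.sec E V ↔ ∀ j, b.repr v j ∈ X.OO V := by
    intro x
    obtain ⟨U, hxU, n, e, he⟩ := hE x.1
    obtain ⟨g, hg, hxg⟩ := hW.exists_basicOpen_le ⟨x.1, hxU⟩ x.2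
    exact ⟨g, n, X.lb E U (X.eta_mem hxU) e he, hxg, fun V hV v =>
      X.mem_sec_iff_lb E U _ e he V (hV.trans hg) v⟩
  choose g n b hx hb using h1
  obtain ⟨t, ht⟩ := hW.isCompact.elim_finite_subcover (fun x : W => (X.Z.basicOpen (g x) : Set X.Z))
    (fun x => (X.Z.basicOpen (g x)).isOpen) (fun x hxW => Set.mem_iUnion.mpr ⟨⟨x, hxW⟩, hx ⟨x, hxW⟩⟩)
  refine ⟨t.card, fun l => g (t.equivFin.symm l), fun l => n (t.equivFin.symm l),
    fun l => b (t.equivFin.symm l), fun l => X.eta_mem (hx _), ?_, fun l => hb _⟩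
  intro x hxW
  obtain ⟨y, hy⟩ := Set.mem_iUnion.mp (ht hxW)
  obtain ⟨hyt, hxy⟩ := Set.mem_iUnion.mp hy
  refine ⟨t.equivFin ⟨y, hyt⟩, ?_⟩
  change x ∈ X.Z.basicOpen (g (t.equivFin.symm (t.equivFin ⟨y, hyt⟩)).1)
  rw [Equiv.symm_apply_apply]
  exact hxy

theorem exists_bound {ι : Type*} [Finite ι] {p : ι → ℕ → Prop} (h : ∀ i, ∃ N, ∀ M, N ≤ M → p i M) :
    ∃ N, ∀ M, N ≤ M → ∀ i, p i M := by
  cases nonempty_fintype ι
  choose N hN using h
  exact ⟨Finset.univ.sup N, fun M hM i => hN i M ((Finset.le_sup (Finset.mem_univ i)).trans hM)⟩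

/-- S1 -/
theorem dualBasis : DualBasis.{u} := by
  intro k _ X E hE W hW hη
  obtain ⟨r, g, n, b, hηg, hcov, hb⟩ := X.exists_cover E hE W hW
  have haff : ∀ l, IsAffineOpen (X.Z.basicOpen (g l)) := fun l => hW.basicOpen (g l)
  have hle : ∀ l, X.Z.basicOpen (g l) ≤ W := fun l => X.Z.basicOpen_le (g l)
  have hgr : ∀ l V, V ≤ W → X.gr W hη (g l) ∈ X.OO V := fun l V hV =>
    X.OO_mono hV (X.gr_mem_OO W hη (g l))
  -- the basis vectors are sections over the basic open subset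
  have hbs : ∀ l j, b l j ∈ X.sec E (X.Z.basicOpen (g l)) := by
    intro l j
    rw [hb l _ le_rfl]
    intro j'
    rw [Module.Basis.repr_self, Finsupp.single_apply]
    split
    · exact (X.OO _).one_mem
    · exact (X.OO _).zero_mem
  -- coordinates of the basis vectors
  have key : ∀ (l l' : Fin r) (j : Fin (n l)) (j' : Fin (n l')), ∃ N, ∀ M, N ≤ M →
      X.gr W hη (g l) ^ M * (b l).repr (b l' j') j ∈ X.OO (X.Z.basicOpen (g l')) := by
    intro l l' j j'
    have h1 : b l' j' ∈ X.sec E (X.Z.basicOpen (g l') ⊓ X.Z.basicOpen (g l)) := X.sec_mono E inf_le_left (hbs l' j')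
    rw [hb l _ inf_le_right] at h1
    obtain ⟨N, hN⟩ := X.exists_pow_mul_mem_OO' W _ (haff l') (hle l') (hηg l') (g l) _ (h1 j)
    exact ⟨N, fun M hM => X.mul_pow_mem (hgr l _ (hle l')) hN hM⟩
  -- coordinates in the other bases of a basis vector
  have key2 : ∀ (l l' : Fin r) (j : Fin (n l)) (j' : Fin (n l')), ∃ N, ∀ M, N ≤ M →
      X.gr W hη (g l) ^ M * (b l').repr (b l j) j' ∈ X.OO (X.Z.basicOpen (g l')) := by
    intro l l' j j'
    have h1 : b l j ∈ X.sec E (X.Z.basicOpen (g l') ⊓ X.Z.basicOpen (g l)) := X.sec_mono E inf_le_right (hbs l j)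
    rw [hb l' _ inf_le_left] at h1
    obtain ⟨N, hN⟩ := X.exists_pow_mul_mem_OO' W _ (haff l') (hle l') (hηg l') (g l) _ (h1 j')
    exact ⟨N, fun M hM => X.mul_pow_mem (hgr l _ (hle l')) hN hM⟩
  obtain ⟨N₁, hN₁⟩ := exists_bound fun l => exists_bound fun l' => exists_bound fun j =>
    exists_bound fun j' => key l l' j j'
  obtain ⟨N₂, hN₂⟩ := exists_bound fun l => exists_bound fun l' => exists_bound fun j =>
    exists_bound fun j' => key2 l l' j j'
  set M := max N₁ N₂ with hM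
  replace hN₁ := hN₁ M (le_max_left _ _)
  replace hN₂ := hN₂ M (le_max_right _ _)
  obtain ⟨p, hp⟩ := exists_sum_pow W hW g hcov (M + M)
  have hp' : ∑ l, X.gr W hη (p l) * X.gr W hη (g l) ^ (M + M) = 1 := by
    have := congrArg (X.gr W hη) hp
    rw [map_sum, map_one] at this
    rw [← this]
    exact Finset.sum_congr rfl fun l _ => by rw [map_mul, map_pow]
  refine ⟨Σ l : Fin r, Fin (n l), inferInstance, fun a => X.gr W hη (g a.1) ^ M • b a.1 a.2,
    fun a => (X.gr W hη (p a.1) * X.gr W hη (g a.1) ^ M) • (b a.1).coord a.2, ?_, ?_, ?_⟩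
  · rintro ⟨l, j⟩
    apply X.mem_sec_of_local E hE
    intro x hx
    obtain ⟨l', hl'⟩ := hcov x hx
    refine ⟨_, hl', ?_⟩
    rw [hb l' _ le_rfl]
    intro j'
    rw [map_smul, Finsupp.smul_apply, smul_eq_mul]
    exact hN₂ l l' j j'
  · rintro ⟨l, j⟩ V hV v hv
    rw [LinearMap.smul_apply, smul_eq_mul, mul_assoc]
    refine (X.OO V).mul_mem (X.OO_mono hV (X.gr_mem_OO W hη (p l))) ?_
    apply X.mem_OO_of_local
    intro x hx
    obtain ⟨l', hl'⟩ := hcov x (hV hx)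
    refine ⟨V ⊓ X.Z.basicOpen (g l'), ⟨hx, hl'⟩, ?_⟩
    have h1 : v ∈ X.sec E (V ⊓ X.Z.basicOpen (g l')) := X.sec_mono E inf_le_left hv
    rw [hb l' _ inf_le_right] at h1
    have h2 : (b l).coord j v = ∑ j', (b l').repr v j' * (b l).repr (b l' j') j := by
      conv_lhs => rw [← (b l').sum_repr v]
      rw [map_sum]
      exact Finset.sum_congr rfl fun j' _ => by rw [map_smul, smul_eq_mul]; rfl
    rw [h2, Finset.mul_sum]
    refine Subalgebra.sum_mem _ fun j' _ => ?_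
    rw [mul_left_comm]
    exact (X.OO _).mul_mem (h1 j') (X.OO_mono inf_le_right (hN₁ l l' j j'))
  · intro v
    rw [Fintype.sum_sigma]
    have h1 : ∀ l, ∑ j, ((X.gr W hη (p l) * X.gr W hη (g l) ^ M) • (b l).coord j) v •
        (X.gr W hη (g l) ^ M • b l j) = (X.gr W hη (p l) * X.gr W hη (g l) ^ (M + M)) • v := by
      intro l
      conv_rhs => rw [← (b l).sum_repr v, Finset.smul_sum]
      refine Finset.sum_congr rfl fun j _ => ?_
      rw [LinearMap.smul_apply, smul_smul, smul_smul, smul_eq_mul, pow_add, Module.Basis.coord_apply]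
      congr 1
      ring
    rw [Finset.sum_congr rfl fun l _ => h1 l, ← Finset.sum_smul, hp', one_smul]

end

end Pool.Agent.Helper17.RZ.Sch
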