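import Pool.Agent.Helper17.RZ.Sch.Asm
import Pool.Agent.Helper17.RZ.Sch.Compare
import Pool.Agent.Helper17.RZ.Fin
import Pool.Agent.Helper51.RZ.Sch.FreeLoc
import Pool.Agent.Helper7.RZ.Sch.SheafOf
import Pool.Agent.Helper87.RZ.Sch.SheafEx
import Pool.Agent.Helper81.RZ.Sch.Ess
import Pool.Agent.Helper45.RZ.Sch.TransportS
import Pool.Agent.Helper28.RZ.Sch.SchemeEx

/-!
# Project RZ (MP_77656e_ag), the layer of schemes: the main theorem
-/

set_option autoImplicit false

namespace Pool.Agent.Helper17.RZ.Sch

universe u

/-- For every algebraically closed field of characteristic different from 2 there is an integral projective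
scheme which is not rational and whose DG category of perfect complexes is quasi-equivalent to the DG
category of perfect modules over a finite-dimensional DG algebra. -/
theorem main3T : Main3.{u} :=
  main3 (compareS dualBasis (Pool.Agent.Helper81.RZ.essS dualBasis
      (Pool.Agent.Helper87.RZ.sheafEx Pool.Agent.Helper51.RZ.freeLoc Pool.Agent.Helper7.RZ.sheafOf)
      Pool.Agent.Helper81.RZ.morEx) Pool.Agent.Helper84.RZ.isoRetr)
    Pool.Agent.Helper45.RZ.transportS Pool.Agent.Helper28.RZ.SE.schemeEx Pool.Agent.Helper49.RZ.perfEquiv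
    Pool.Agent.Helper17.RZ.mainT2

end Pool.Agent.Helper17.RZ.Sch
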