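import Pool.Agent.Helper17.RZ.Sch.Defs

/-!
# Project RZ (MP_77656e_ag), the layer of schemes: sections of vector bundles and germs at the generic point
-/

set_option autoImplicit false

open AlgebraicGeometry CategoryTheory TopologicalSpace Opposite

namespace Pool.Agent.Helper17.RZ.Sch

universe u

noncomputable section

variable {k : Type u} [Field k] (X : CSch.{u} k)

/-- a local basis -/
def IsLB {Z : Scheme.{u}} (E : Z.Modules) (U : Z.Opens) {n : ℕ} (e : Fin n → Γ(E, U)) : Prop :=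
  ∀ (W : Z.Opens) (h : W ≤ U) (s : Γ(E, W)),
    ∃! c : Fin n → Γ(Z, W), s = ∑ j, c j • E.presheaf.map (homOfLE h).op (e j)

/-- locality of equality -/
theorem eq_of_local {Z : Scheme.{u}} (E : Z.Modules) (W : Z.Opens) (s t : Γ(E, W))
    (H : ∀ x ∈ W, ∃ (V : Z.Opens) (i : V ≤ W), x ∈ V ∧
      E.presheaf.map (homOfLE i).op s = E.presheaf.map (homOfLE i).op t) : s = t := by
  choose V i hx hV using fun x : W => H x.1 x.2
  apply TopCat.Sheaf.eq_of_locally_eq' (X := Z.toPresheafedSpace.carrier) ⟨E.presheaf, E.isSheaf⟩ V W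
    (fun x => homOfLE (i x))
  · intro x hxU
    exact Opens.mem_iSup.mpr ⟨⟨x, hxU⟩, hx ⟨x, hxU⟩⟩
  · intro x
    exact hV x

/-- gluing -/
theorem glue {Z : Scheme.{u}} (E : Z.Modules) (W : Z.Opens) {ι : Type u} (V : ι → Z.Opens) (i : ∀ a, V a ≤ W)
    (hc : ∀ x ∈ W, ∃ a, x ∈ V a) (s : ∀ a, Γ(E, V a))
    (hs : ∀ a b, E.presheaf.map (homOfLE (inf_le_left : V a ⊓ V b ≤ V a)).op (s a) =
      E.presheaf.map (homOfLE (inf_le_right : V a ⊓ V b ≤ V b)).op (s b)) :
    ∃ t : Γ(E, W), ∀ a, E.presheaf.map (homOfLE (i a)).op t = s a := by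
  obtain ⟨t, ht, _⟩ := TopCat.Sheaf.existsUnique_gluing' (X := Z.toPresheafedSpace.carrier)
    ⟨E.presheaf, E.isSheaf⟩ V W (fun a => homOfLE (i a))
    (fun x hx => by obtain ⟨a, ha⟩ := hc x hx; exact Opens.mem_iSup.mpr ⟨a, ha⟩) s
    (fun a b => hs a b)
  exact ⟨t, ht⟩

theorem res_res {Z : Scheme.{u}} (E : Z.Modules) {U V W : Z.Opens} (i : V ≤ U) (j : W ≤ V) (s : Γ(E, U)) :
    E.presheaf.map (homOfLE j).op (E.presheaf.map (homOfLE i).op s) =
      E.presheaf.map (homOfLE (j.trans i)).op s := by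
  rw [← ConcreteCategory.comp_apply, ← E.presheaf.map_comp]
  rfl

/-- finitely many functions are defined on a common open subset -/
theorem CSch.exists_gr_fin {n : ℕ} (a : Fin n → X.K) (U : X.Z.Opens) (h : X.eta ∈ U) :
    ∃ (V : X.Z.Opens) (_ : V ≤ U) (h' : X.eta ∈ V) (r : Fin n → Γ(X.Z, V)), ∀ j, X.gr V h' (r j) = a j := by
  choose V hV h' r hr using fun j => X.exists_gr_le (a j) U h
  refine ⟨U ⊓ Finset.univ.inf V, inf_le_left, ⟨h, ?_⟩, fun j => X.Z.presheaf.map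
    (homOfLE (inf_le_right.trans (Finset.inf_le (Finset.mem_univ j)) : U ⊓ Finset.univ.inf V ≤ V j)).op (r j), ?_⟩
  · have : ∀ s : Finset (Fin n), X.eta ∈ s.inf V := by
      intro s
      induction s using Finset.induction_on with
      | empty => simp
      | insert j s _ ih => rw [Finset.inf_insert, Opens.mem_inf]; exact ⟨h' j, ih⟩
    exact this Finset.univ
  · intro j
    exact (X.gr_res (h' j) _ _ (r j)).trans (hr j)

theorem CSch.gr_injective (W : X.Z.Opens) (h : X.eta ∈ W) : Function.Injective (X.gr W h) :=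
  germ_injective_of_isIntegral X.Z X.eta h

/-- the germs of a local basis are linearly independent -/
theorem CSch.lb_indep (E : X.Z.Modules) (U : X.Z.Opens) (h : X.eta ∈ U) {n : ℕ} (e : Fin n → Γ(E, U))
    (he : IsLB E U e) : LinearIndependent X.K (fun j => X.gm E U h (e j)) := by
  rw [Fintype.linearIndependent_iff]
  intro a ha
  obtain ⟨V, hV, h', r, hr⟩ := X.exists_gr_fin a U h
  have h1 : X.gm E V h' (∑ j, r j • E.presheaf.map (homOfLE hV).op (e j)) = X.gm E V h' 0 := by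
    rw [map_sum, map_zero, ← ha]
    refine Finset.sum_congr rfl fun j _ => ?_
    rw [X.gm_smul, hr, X.gm_res E h hV h']
  obtain ⟨V', h'', i, i', hh⟩ := X.gm_eq E h' h' _ _ h1
  rw [map_sum, map_zero] at hh
  obtain ⟨c, _, hu⟩ := he V' (i.trans hV) 0
  have e1 : (fun j => X.Z.presheaf.map (homOfLE i).op (r j)) = c := by
    apply hu
    rw [← hh]
    refine Finset.sum_congr rfl fun j _ => ?_
    rw [Scheme.Modules.map_smul, res_res]
  have e2 : (fun _ : Fin n => (0 : Γ(X.Z, V'))) = c := by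
    apply hu
    simp
  intro j
  rw [← hr j, ← X.gr_res h' i h'']
  have := congrFun (e1.trans e2.symm) j
  dsimp only at this
  rw [this, map_zero]

/-- the germs of a local basis span the stalk -/
theorem CSch.lb_span (E : X.Z.Modules) (U : X.Z.Opens) (h : X.eta ∈ U) {n : ℕ} (e : Fin n → Γ(E, U))
    (he : IsLB E U e) : ⊤ ≤ Submodule.span X.K (Set.range fun j => X.gm E U h (e j)) := by
  intro v _
  obtain ⟨V, hV, h', s, rfl⟩ := X.exists_gm_le E v U h
  obtain ⟨c, hc, _⟩ := he V hV s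
  rw [hc, map_sum]
  refine Submodule.sum_mem _ fun j _ => ?_
  rw [X.gm_smul, X.gm_res E h hV h']
  exact Submodule.smul_mem _ _ (Submodule.subset_span ⟨j, rfl⟩)

/-- the basis of the stalk -/
def CSch.lb (E : X.Z.Modules) (U : X.Z.Opens) (h : X.eta ∈ U) {n : ℕ} (e : Fin n → Γ(E, U))
    (he : IsLB E U e) : Module.Basis (Fin n) X.K (X.st E) :=
  Module.Basis.mk (X.lb_indep E U h e he) (X.lb_span E U h e he)

theorem CSch.lb_repr (E : X.Z.Modules) (U : X.Z.Opens) (h : X.eta ∈ U) {n : ℕ} (e : Fin n → Γ(E, U))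
    (he : IsLB E U e) (W : X.Z.Opens) (hW : W ≤ U) (h' : X.eta ∈ W) (c : Fin n → Γ(X.Z, W)) (j : Fin n) :
    (X.lb E U h e he).repr (X.gm E W h' (∑ j, c j • E.presheaf.map (homOfLE hW).op (e j))) j =
      X.gr W h' (c j) := by
  have : X.gm E W h' (∑ j, c j • E.presheaf.map (homOfLE hW).op (e j)) =
      ∑ j, X.gr W h' (c j) • X.lb E U h e he j := by
    rw [map_sum]
    refine Finset.sum_congr rfl fun j _ => ?_
    rw [X.gm_smul, X.gm_res E h hW h', CSch.lb, Module.Basis.mk_apply]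
  rw [this, map_sum, Finsupp.finsetSum_apply, Finset.sum_eq_single j]
  · simp
  · intro b _ hb; simp [hb]
  · intro hj; exact absurd (Finset.mem_univ j) hj

/-- sections of a vector bundle are determined by their germs at the generic point -/
theorem CSch.gm_injective (E : X.Z.Modules) (hE : IsVB E) (W : X.Z.Opens) (h : X.eta ∈ W) :
    Function.Injective (X.gm E W h) := by
  rw [injective_iff_map_eq_zero]
  intro s hs
  apply eq_of_local
  intro x hx
  obtain ⟨U, hxU, n, e, he⟩ := hE x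
  have hV : X.eta ∈ W ⊓ U := X.eta_mem (x := x) ⟨hx, hxU⟩
  refine ⟨W ⊓ U, inf_le_left, ⟨hx, hxU⟩, ?_⟩
  obtain ⟨c, hc, _⟩ := he (W ⊓ U) inf_le_right (E.presheaf.map (homOfLE inf_le_left).op s)
  rw [hc, map_zero]
  refine Finset.sum_eq_zero fun j _ => ?_
  have h1 := X.lb_repr E U (X.eta_mem hxU) e he (W ⊓ U) inf_le_right hV c j
  rw [← hc, X.gm_res E h inf_le_left hV, hs, map_zero] at h1
  have h2 : c j = 0 := by
    apply X.gr_injective (W ⊓ U) hV
    rw [map_zero, ← h1]; rfl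
  rw [h2, zero_smul]

/-- membership in the sections is local -/
theorem CSch.mem_sec_of_local (E : X.Z.Modules) (hE : IsVB E) (W : X.Z.Opens) (v : X.st E)
    (H : ∀ x ∈ W, ∃ V : X.Z.Opens, x ∈ V ∧ v ∈ X.sec E V) : v ∈ X.sec E W := by
  intro h
  choose V hxV hv using fun x : W => H x.1 x.2
  have hη : ∀ x : W, X.eta ∈ V x := fun x => X.eta_mem (hxV x)
  choose s hs using fun x : W => hv x (hη x)
  have hη' : ∀ x : W, X.eta ∈ W ⊓ V x := fun x => ⟨h, hη x⟩
  obtain ⟨t, ht⟩ := glue E W (fun x : W => W ⊓ V x) (fun x => inf_le_left)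
    (fun x hx => ⟨⟨x, hx⟩, hx, hxV ⟨x, hx⟩⟩)
    (fun x => E.presheaf.map (homOfLE (inf_le_right : W ⊓ V x ≤ V x)).op (s x))
    (fun x y => by
      have hη2 : X.eta ∈ (W ⊓ V x) ⊓ (W ⊓ V y) := ⟨hη' x, hη' y⟩
      apply X.gm_injective E hE _ hη2
      rw [X.gm_res E (hη' x) _ hη2, X.gm_res E (hη' y) _ hη2, X.gm_res E (hη x) _ (hη' x),
        X.gm_res E (hη y) _ (hη' y), hs, hs])
  refine ⟨t, ?_⟩
  have hx0 : X.eta ∈ W := h
  have h1 := ht ⟨X.eta, hx0⟩
  have h2 := X.gm_res E h (inf_le_left : W ⊓ V ⟨X.eta, hx0⟩ ≤ W) (hη' _) t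
  rw [h1, X.gm_res E (hη _) _ (hη' _), hs] at h2
  exact h2.symm

theorem CSch.sec_mono (E : X.Z.Modules) {W W' : X.Z.Opens} (i : W' ≤ W) {v : X.st E} (hv : v ∈ X.sec E W) :
    v ∈ X.sec E W' := by
  intro h'
  obtain ⟨s, hs⟩ := hv (i h')
  exact ⟨E.presheaf.map (homOfLE i).op s, by rw [X.gm_res E (i h') i h', hs]⟩

theorem CSch.gm_mem_sec (E : X.Z.Modules) (W : X.Z.Opens) (h : X.eta ∈ W) (s : Γ(E, W)) :
    X.gm E W h s ∈ X.sec E W := fun _ => ⟨s, rfl⟩

theorem subsingleton_of_empty {Z : Scheme.{u}} (E : Z.Modules) (W : Z.Opens) (hW : ∀ x, x ∉ W) :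
    Subsingleton Γ(E, W) := by
  constructor
  intro s t
  apply eq_of_local
  intro x hx
  exact absurd hx (hW x)

/-- the morphism of sheaves with germ `φ` -/
theorem CSch.isGerm_of_sec (E F : X.Z.Modules) (hF : IsVB F) (U : X.Z.Opens) (φ : X.st E →ₗ[X.K] X.st F)
    (H : ∀ W ≤ U, ∀ v ∈ X.sec E W, φ v ∈ X.sec F W) : X.IsGerm E F U φ := by
  classical
  have hle : ∀ W : U.toScheme.Opens, U.ι ''ᵁ W ≤ U := fun W => by
    intro x hx
    obtain ⟨y, _, rfl⟩ := hx
    exact y.2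
  have hex : ∀ (W : U.toScheme.Opens) (s : Γ(E, U.ι ''ᵁ W)), ∃ t : Γ(F, U.ι ''ᵁ W),
      ∀ h : X.eta ∈ U.ι ''ᵁ W, X.gm F _ h t = φ (X.gm E _ h s) := by
    intro W s
    by_cases h : X.eta ∈ U.ι ''ᵁ W
    · obtain ⟨t, ht⟩ := H _ (hle W) _ (X.gm_mem_sec E _ h s) h
      exact ⟨t, fun _ => ht⟩
    · exact ⟨0, fun h' => absurd h' h⟩
  choose g hg using hex
  have huniq : ∀ (W : U.toScheme.Opens) (t t' : Γ(F, U.ι ''ᵁ W)),
      (∀ h : X.eta ∈ U.ι ''ᵁ W, X.gm F _ h t = X.gm F _ h t') → t = t' := by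
    intro W t t' ht
    by_cases h : X.eta ∈ U.ι ''ᵁ W
    · exact X.gm_injective F hF _ h (ht h)
    · have := subsingleton_of_empty F (U.ι ''ᵁ W) (fun x hx => h (X.eta_mem hx))
      exact Subsingleton.elim _ _
  let ψ : ∀ W : U.toScheme.Opens, Γ(E, U.ι ''ᵁ W) →+ Γ(F, U.ι ''ᵁ W) := fun W =>
    { toFun := g W
      map_zero' := huniq W _ _ fun h => by rw [hg, map_zero, map_zero, map_zero]
      map_add' := fun s t => huniq W _ _ fun h => by rw [hg, map_add, map_add, map_add, hg, hg] }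
  refine ⟨⟨PresheafOfModules.homMk
    { app := fun W => AddCommGrpCat.ofHom (ψ W.unop)
      naturality := ?_ } ?_⟩, ?_⟩
  · intro W₁ W₂ f
    ext s
    have hi : U.ι ''ᵁ W₂.unop ≤ U.ι ''ᵁ W₁.unop := Scheme.Hom.image_mono _ (leOfHom f.unop)
    have key : ∀ s : Γ(E, U.ι ''ᵁ W₁.unop), g W₂.unop (E.presheaf.map (homOfLE hi).op s) =
        F.presheaf.map (homOfLE hi).op (g W₁.unop s) := by
      intro s
      apply huniq
      intro h
      rw [hg, X.gm_res E (hi h) hi h, X.gm_res F (hi h) hi h, hg]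
    exact key s
  · intro W r m
    have key : ∀ (r : Γ(X.Z, U.ι ''ᵁ W.unop)) (m : Γ(E, U.ι ''ᵁ W.unop)),
        g W.unop (r • m) = r • g W.unop m := by
      intro r m
      apply huniq
      intro h
      rw [hg, X.gm_smul, X.gm_smul, hg, map_smul]
    exact key _ m
  · intro W h s
    exact (hg W s h).symm

theorem CSch.sec_of_isGerm (E F : X.Z.Modules) (U : X.Z.Opens) (φ : X.st E →ₗ[X.K] X.st F)
    (H : X.IsGerm E F U φ) : ∀ W ≤ U, ∀ v ∈ X.sec E W, φ v ∈ X.sec F W := by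
  obtain ⟨g, hg⟩ := H
  intro W hW v hv
  obtain ⟨W', rfl⟩ : ∃ W' : U.toScheme.Opens, W = U.ι ''ᵁ W' :=
    ⟨U.ι ⁻¹ᵁ W, by rw [Scheme.Hom.image_preimage_eq_opensRange_inf, Scheme.Opens.opensRange_ι]; exact (inf_eq_right.mpr hW).symm⟩
  intro h
  obtain ⟨s, rfl⟩ := hv h
  exact ⟨g.app W' s, (hg W' h s).symm⟩

/-- Germs of morphisms `E|_U ⟶ F|_U` of vector bundles are the linear maps which preserve the sections
over all open subsets of `U`. -/
theorem CSch.isGerm_iff (E F : X.Z.Modules) (hF : IsVB F) (U : X.Z.Opens) (φ : X.st E →ₗ[X.K] X.st F) :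
    X.IsGerm E F U φ ↔ ∀ W ≤ U, ∀ v ∈ X.sec E W, φ v ∈ X.sec F W :=
  ⟨X.sec_of_isGerm E F U φ, X.isGerm_of_sec E F hF U φ⟩

end

end Pool.Agent.Helper17.RZ.Sch
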