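import Pool.Agent.Helper17.RZ.Sch.Germ

/-!
# Project RZ (MP_77656e_ag), the layer of schemes: regular functions as elements of the function field
-/

set_option autoImplicit false

open AlgebraicGeometry CategoryTheory TopologicalSpace Opposite

namespace Pool.Agent.Helper17.RZ.Sch

universe u

noncomputable section

variable {k : Type u} [Field k] (X : CSch.{u} k)

theorem CSch.OO_mono {W W' : X.Z.Opens} (i : W' ≤ W) : X.OO W ≤ X.OO W' := by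
  intro c hc h'
  obtain ⟨r, rfl⟩ := hc (i h')
  exact ⟨X.Z.presheaf.map (homOfLE i).op r, X.gr_res (i h') i h' r⟩

theorem CSch.gr_mem_OO (W : X.Z.Opens) (h : X.eta ∈ W) (r : Γ(X.Z, W)) : X.gr W h r ∈ X.OO W :=
  fun _ => ⟨r, rfl⟩

/-- gluing of functions -/
theorem glueO {Z : Scheme.{u}} (W : Z.Opens) {ι : Type u} (V : ι → Z.Opens) (i : ∀ a, V a ≤ W)
    (hc : ∀ x ∈ W, ∃ a, x ∈ V a) (s : ∀ a, Γ(Z, V a))
    (hs : ∀ a b, Z.presheaf.map (homOfLE (inf_le_left : V a ⊓ V b ≤ V a)).op (s a) =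
      Z.presheaf.map (homOfLE (inf_le_right : V a ⊓ V b ≤ V b)).op (s b)) :
    ∃ t : Γ(Z, W), ∀ a, Z.presheaf.map (homOfLE (i a)).op t = s a := by
  obtain ⟨t, ht, _⟩ := TopCat.Sheaf.existsUnique_gluing' Z.sheaf V W (fun a => homOfLE (i a))
    (fun x hx => by obtain ⟨a, ha⟩ := hc x hx; exact Opens.mem_iSup.mpr ⟨a, ha⟩) s
    (fun a b => hs a b)
  exact ⟨t, ht⟩

/-- regularity is local -/
theorem CSch.mem_OO_of_local (W : X.Z.Opens) (c : X.K)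
    (H : ∀ x ∈ W, ∃ V : X.Z.Opens, x ∈ V ∧ c ∈ X.OO V) : c ∈ X.OO W := by
  intro h
  choose V hxV hv using fun x : W => H x.1 x.2
  have hη : ∀ x : W, X.eta ∈ V x := fun x => X.eta_mem (hxV x)
  choose s hs using fun x : W => hv x (hη x)
  have hη' : ∀ x : W, X.eta ∈ W ⊓ V x := fun x => ⟨h, hη x⟩
  obtain ⟨t, ht⟩ := glueO W (fun x : W => W ⊓ V x) (fun x => inf_le_left)
    (fun x hx => ⟨⟨x, hx⟩, hx, hxV ⟨x, hx⟩⟩)
    (fun x => X.Z.presheaf.map (homOfLE (inf_le_right : W ⊓ V x ≤ V x)).op (s x))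
    (fun x y => by
      have hη2 : X.eta ∈ (W ⊓ V x) ⊓ (W ⊓ V y) := ⟨hη' x, hη' y⟩
      apply X.gr_injective _ hη2
      rw [X.gr_res (hη' x) _ hη2, X.gr_res (hη' y) _ hη2, X.gr_res (hη x) _ (hη' x),
        X.gr_res (hη y) _ (hη' y), hs, hs])
  refine ⟨t, ?_⟩
  have hx0 : X.eta ∈ W := h
  have h1 := ht ⟨X.eta, hx0⟩
  have h2 := X.gr_res h (inf_le_left : W ⊓ V ⟨X.eta, hx0⟩ ≤ W) (hη' _) t
  rw [h1, X.gr_res (hη _) _ (hη' _), hs] at h2
  exact h2.symm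

theorem CSch.gr_basicOpen_ne_zero (W : X.Z.Opens) (h : X.eta ∈ W) (g : Γ(X.Z, W)) :
    X.eta ∈ X.Z.basicOpen g ↔ X.gr W h g ≠ 0 := by
  rw [Scheme.mem_basicOpen X.Z g X.eta h]
  exact isUnit_iff_ne_zero (G₀ := X.K)

/-- the inverse of `g` is regular where `g` does not vanish -/
theorem CSch.inv_mem_OO (W : X.Z.Opens) (h : X.eta ∈ W) (g : Γ(X.Z, W)) :
    (X.gr W h g)⁻¹ ∈ X.OO (X.Z.basicOpen g) := by
  intro h'
  have hu : IsUnit (X.Z.presheaf.map (homOfLE (X.Z.basicOpen_le g)).op g) :=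
    RingedSpace.isUnit_res_basicOpen _ g
  obtain ⟨v, hv⟩ := hu
  refine ⟨(v⁻¹ : (Γ(X.Z, X.Z.basicOpen g))ˣ), ?_⟩
  have h1 : X.gr W h g = X.gr (X.Z.basicOpen g) h' v := by rw [hv, X.gr_res h]
  rw [h1]
  apply eq_inv_of_mul_eq_one_left
  rw [← map_mul, Units.inv_mul, map_one]

/-- functions on a basic open subset of an affine open subset -/
theorem CSch.exists_pow_mul_mem_OO (V : X.Z.Opens) (hV : IsAffineOpen V) (h : X.eta ∈ V) (g : Γ(X.Z, V))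
    (c : X.K) (hc : c ∈ X.OO (X.Z.basicOpen g)) : ∃ N : ℕ, X.gr V h g ^ N * c ∈ X.OO V := by
  by_cases h' : X.eta ∈ X.Z.basicOpen g
  · obtain ⟨r, rfl⟩ := hc h'
    have := hV.isLocalization_basicOpen g
    obtain ⟨N, s, hs⟩ := IsLocalization.Away.surj g r
    refine ⟨N, fun _ => ⟨s, ?_⟩⟩
    have e1 : ∀ t : Γ(X.Z, V), X.gr _ h' (algebraMap Γ(X.Z, V) Γ(X.Z, X.Z.basicOpen g) t) = X.gr V h t :=
      fun t => X.gr_res h (X.Z.basicOpen_le g) h' t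
    rw [← e1 s, ← hs, map_mul, map_pow, e1, mul_comm]
  · refine ⟨1, ?_⟩
    have : X.gr V h g = 0 := by
      by_contra h0
      exact h' ((X.gr_basicOpen_ne_zero V h g).mpr h0)
    rw [this]; simp [(X.OO V).zero_mem]

theorem CSch.exists_pow_mul_mem_OO' (W V : X.Z.Opens) (hV : IsAffineOpen V) (hVW : V ≤ W) (h : X.eta ∈ V)
    (g : Γ(X.Z, W)) (c : X.K) (hc : c ∈ X.OO (V ⊓ X.Z.basicOpen g)) :
    ∃ N : ℕ, X.gr W (hVW h) g ^ N * c ∈ X.OO V := by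
  rw [← Scheme.basicOpen_res X.Z g (homOfLE hVW).op] at hc
  obtain ⟨N, hN⟩ := X.exists_pow_mul_mem_OO V hV h _ c hc
  rw [X.gr_res (hVW h) hVW h] at hN
  exact ⟨N, hN⟩

/-- all rational functions are fractions -/
theorem CSch.exists_mul_mem_OO (V : X.Z.Opens) (hV : IsAffineOpen V) (h : X.eta ∈ V) (c : X.K) :
    ∃ g : Γ(X.Z, V), X.gr V h g ≠ 0 ∧ X.gr V h g * c ∈ X.OO V := by
  obtain ⟨W, h', r, rfl⟩ := X.exists_gr c
  obtain ⟨g, hg, hη⟩ := hV.exists_basicOpen_le ⟨X.eta, h'⟩ h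
  have hc : X.gr W h' r ∈ X.OO (X.Z.basicOpen g) := X.OO_mono hg (X.gr_mem_OO W h' r)
  obtain ⟨N, hN⟩ := X.exists_pow_mul_mem_OO V hV h g _ hc
  refine ⟨g ^ N, ?_, ?_⟩
  · rw [map_pow]; exact pow_ne_zero _ ((X.gr_basicOpen_ne_zero V h g).mp hη)
  · rw [map_pow]; exact hN

/-- a partition of unity -/
theorem exists_sum_pow {Z : Scheme.{u}} (W : Z.Opens) (hW : IsAffineOpen W) {ι : Type} [Fintype ι]
    (g : ι → Γ(Z, W)) (hc : ∀ x ∈ W, ∃ l, x ∈ Z.basicOpen (g l)) (M : ℕ) :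
    ∃ b : ι → Γ(Z, W), ∑ l, b l * g l ^ M = 1 := by
  have h1 : Ideal.span (Set.range g) = ⊤ := by
    rw [← hW.self_le_iSup_basicOpen_iff]
    intro x hx
    obtain ⟨l, hl⟩ := hc x hx
    exact Opens.mem_iSup.mpr ⟨⟨g l, ⟨l, rfl⟩⟩, hl⟩
  have h2 : Ideal.span (Set.range fun l => g l ^ M) = ⊤ := by
    have := Ideal.span_pow_eq_top _ h1 M
    rw [← Set.range_comp] at this
    exact this
  have h3 : (1 : Γ(Z, W)) ∈ Ideal.span (Set.range fun l => g l ^ M) := by rw [h2]; trivial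
  rw [Ideal.mem_span_range_iff_exists_fun] at h3
  exact h3

end

end Pool.Agent.Helper17.RZ.Sch
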